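import Pool.Agent.H24.SCG.Base

/-!
SCG, module SD: two commuting different homologies are simultaneously diagonal.
-/

namespace Pool.Agent.H22.SCG

open Matrix Pool.SCG

theorem sd_thm (hINV : Pool.SCG.INVStmt) (hHCM : Pool.SCG.HCMStmt) : Pool.SCG.SDStmt := by
  intro F _ h2 x y hxs hys hx1 hy1 hxx hyy hxy hne
  have homx : ∃ v φ : Fin 3 → F, IsHom x v φ := by
    rcases hINV F h2 x hx1 hxx with h | h
    · exact h
    · rw [hxs] at h; exact absurd h.1 Bool.false_ne_true
  have homy : ∃ v φ : Fin 3 → F, IsHom y v φ := by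
    rcases hINV F h2 y hy1 hyy with h | h
    · exact h
    · rw [hys] at h; exact absurd h.1 Bool.false_ne_true
  obtain ⟨v, φ, hv⟩ := homx
  obtain ⟨w, ψ, hw⟩ := homy
  obtain ⟨k1, k2⟩ := hHCM F h2 x y v φ w ψ hv hw hxy hne
  have a1 : φ 0 * v 0 + φ 1 * v 1 + φ 2 * v 2 = 1 := by
    have := hv.2.1
    simpa [dotProduct, Fin.sum_univ_three] using this
  have a2 : ψ 0 * w 0 + ψ 1 * w 1 + ψ 2 * w 2 = 1 := by
    have := hw.2.1
    simpa [dotProduct, Fin.sum_univ_three] using this
  have a3 : φ 0 * w 0 + φ 1 * w 1 + φ 2 * w 2 = 0 := by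
    simpa [dotProduct, Fin.sum_univ_three] using k1
  have a4 : ψ 0 * v 0 + ψ 1 * v 1 + ψ 2 * v 2 = 0 := by
    simpa [dotProduct, Fin.sum_univ_three] using k2
  -- the base change
  let Q : M3 F := !![v 0, ψ 1 * φ 2 - ψ 2 * φ 1, w 0;
    v 1, ψ 2 * φ 0 - ψ 0 * φ 2, w 1;
    v 2, ψ 0 * φ 1 - ψ 1 * φ 0, w 2]
  have hdet : Q.det = 1 := by
    simp only [Q, Matrix.det_fin_three, Matrix.of_apply, Matrix.cons_val', Matrix.cons_val_zero,
      Matrix.cons_val_one, Matrix.cons_val]
    linear_combination (ψ 0 * w 0 + ψ 1 * w 1 + ψ 2 * w 2) * a1 + a2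
      - (ψ 0 * v 0 + ψ 1 * v 1 + ψ 2 * v 2) * a3
  let P : SL3 F := ⟨Q, hdet⟩
  have hPQ : (P : M3 F) = Q := rfl
  have Ix : Is x false (x.m : M3 F) := ⟨hxs, rfl⟩
  have Iy : Is y false (y.m : M3 F) := ⟨hys, rfl⟩
  have hadj : adjugate Q * Q = 1 := adj_mul_self hdet
  have ex : (x.m : M3 F) * Q = Q * dg 1 (-1) (-1) := by
    rw [hv.2.2]
    ext i j
    fin_cases i <;> fin_cases j <;>
      simp [Q, dg, Matrix.mul_apply, Fin.sum_univ_three, Matrix.vecMulVec_apply,
        Matrix.sub_apply, Matrix.smul_apply, Matrix.one_apply]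
    · linear_combination 2 * v 0 * a1
    · ring
    · linear_combination 2 * v 0 * a3
    · linear_combination 2 * v 1 * a1
    · ring
    · linear_combination 2 * v 1 * a3
    · linear_combination 2 * v 2 * a1
    · ring
    · linear_combination 2 * v 2 * a3
  have ey : (y.m : M3 F) * Q = Q * dg (-1) (-1) 1 := by
    rw [hw.2.2]
    ext i j
    fin_cases i <;> fin_cases j <;>
      simp [Q, dg, Matrix.mul_apply, Fin.sum_univ_three, Matrix.vecMulVec_apply,
        Matrix.sub_apply, Matrix.smul_apply, Matrix.one_apply]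
    · linear_combination 2 * w 0 * a4
    · ring
    · linear_combination 2 * w 0 * a2
    · linear_combination 2 * w 1 * a4
    · ring
    · linear_combination 2 * w 1 * a2
    · linear_combination 2 * w 2 * a4
    · ring
    · linear_combination 2 * w 2 * a2
  refine ⟨P, ?_, ?_⟩
  · have := Ix.cj_inner P
    rw [hPQ, mul_assoc, ex, ← mul_assoc, hadj, one_mul] at this
    exact this
  · have := Iy.cj_inner P
    rw [hPQ, mul_assoc, ey, ← mul_assoc, hadj, one_mul] at this
    exact this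

end Pool.Agent.H22.SCG
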